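import Mathlib

/-!
# Association of workload differences in the GI/GI/k queue (MP_d464c7_pr, Q1)

With two servers, constant interarrival times `10` and service times `19` with probability `9/10`
and `0` with probability `1/10`, the family `V_1, V_2 - V_1, -T` is not associated.
-/

open MeasureTheory Set Filter Topology
open scoped ENNReal

namespace Pool.Agent.Results.MP_d464c7_pr.NotAssociated

/-- nondecreasing rearrangement of a vector -/
noncomputable def rearr {k : ℕ} (w : Fin k → ℝ) : Fin k → ℝ := w ∘ Tuple.sort w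

/-- `V = R(W_1 + S, W_2, ..., W_k)` (for `k = j + 2` servers) -/
noncomputable def workV {j : ℕ} (w : Fin (j + 2) → ℝ) (s : ℝ) : Fin (j + 2) → ℝ :=
  rearr (Function.update w 0 (w 0 + s))

/-- one step of the Kiefer-Wolfowitz recursion: `W'_i = (V_i - T)_+` -/
noncomputable def step {j : ℕ} (w : Fin (j + 2) → ℝ) (s t : ℝ) : Fin (j + 2) → ℝ :=
  fun i => max (workV w s i - t) 0

/-- the law of the workload vector at the `n`-th arrival, the system being initially empty -/
noncomputable def lawFromEmpty (j : ℕ) (μS μT : Measure ℝ) : ℕ → Measure (Fin (j + 2) → ℝ)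
  | 0 => Measure.dirac 0
  | n + 1 => ((lawFromEmpty j μS μT n).prod (μS.prod μT)).map fun p => step p.1 p.2.1 p.2.2

/-- The laws of the service time and of the interarrival time of a GI/GI/k system with
`k = j + 2` servers and relative traffic intensity smaller than one. -/
structure IsSystem (j : ℕ) (μS μT : Measure ℝ) : Prop where
  probS : IsProbabilityMeasure μS
  probT : IsProbabilityMeasure μT
  nonnegS : μS (Iio 0) = 0
  nonnegT : μT (Iio 0) = 0
  integrableS : Integrable (fun s : ℝ => s) μS
  integrableT : Integrable (fun t : ℝ => t) μT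
  meanS : 0 < ∫ s, s ∂μS
  meanT : 0 < ∫ t, t ∂μT
  intensity : (∫ s, s ∂μS) / (((j + 2 : ℕ) : ℝ) * ∫ t, t ∂μT) < 1

/-- `ν` is the stationary law of the workload vector: an invariant probability measure, limit of
the laws of the system started empty. -/
structure IsStationaryLaw (j : ℕ) (μS μT : Measure ℝ) (ν : Measure (Fin (j + 2) → ℝ)) :
    Prop where
  prob : IsProbabilityMeasure ν
  invariant : (ν.prod (μS.prod μT)).map (fun p => step p.1 p.2.1 p.2.2) = ν
  limit : ∀ f : (Fin (j + 2) → ℝ) → ℝ, Continuous f → (∃ M, ∀ w, |f w| ≤ M) →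
    Tendsto (fun n => ∫ w, f w ∂(lawFromEmpty j μS μT n)) atTop (𝓝 (∫ w, f w ∂ν))

/-- Association of a finite family `X` of random variables. -/
def Associated {Ω ι : Type} [MeasurableSpace Ω] [Fintype ι] (P : Measure Ω)
    (X : Ω → ι → ℝ) : Prop :=
  ∀ f g : (ι → ℝ) → ℝ, Measurable f → Measurable g → Monotone f → Monotone g →
    (∃ M, ∀ x, |f x| ≤ M) → (∃ M, ∀ x, |g x| ≤ M) →
    0 ≤ (∫ ω, f (X ω) * g (X ω) ∂P) - (∫ ω, f (X ω) ∂P) * ∫ ω, g (X ω) ∂P

/-- The family `V_1, V_2 - V_1, ..., V_k - V_1, -T`. -/
noncomputable def family {j : ℕ} (w : Fin (j + 2) → ℝ) (s t : ℝ) : Option (Fin (j + 2)) → ℝ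
  | none => -t
  | some i => if i = 0 then workV w s 0 else workV w s i - workV w s 0

/-! ### Two servers -/

lemma rearr_two (w : Fin 2 → ℝ) : rearr w = ![min (w 0) (w 1), max (w 0) (w 1)] := by
  unfold rearr
  rcases le_total (w 0) (w 1) with h | h
  · have hm : Monotone (w ∘ (1 : Equiv.Perm (Fin 2))) := by
      intro a b hab
      fin_cases a <;> fin_cases b <;> simp_all
    rw [← Tuple.comp_sort_eq_comp_iff_monotone.2 hm, min_eq_left h, max_eq_right h]
    funext i
    fin_cases i <;> simp
  · have hm : Monotone (w ∘ (Equiv.swap 0 1 : Equiv.Perm (Fin 2))) := by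
      intro a b hab
      fin_cases a <;> fin_cases b <;> simp_all
    rw [← Tuple.comp_sort_eq_comp_iff_monotone.2 hm, min_eq_right h, max_eq_left h]
    funext i
    fin_cases i <;> simp

lemma workV_two (w : Fin (0 + 2) → ℝ) (s : ℝ) :
    workV w s = ![min (w 0 + s) (w 1), max (w 0 + s) (w 1)] := by
  unfold workV
  rw [rearr_two]
  simp

lemma measurable_step_two :
    Measurable (fun p : (Fin (0 + 2) → ℝ) × (ℝ × ℝ) => step p.1 p.2.1 p.2.2) := by
  have h : (fun p : (Fin (0 + 2) → ℝ) × (ℝ × ℝ) => step p.1 p.2.1 p.2.2) = fun p =>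
      ![max (min (p.1 0 + p.2.1) (p.1 1) - p.2.2) 0,
        max (max (p.1 0 + p.2.1) (p.1 1) - p.2.2) 0] := by
    funext p i
    unfold step
    rw [workV_two]
    fin_cases i <;> simp
  rw [h, measurable_pi_iff]
  intro i
  fin_cases i
  · simp only [Fin.zero_eta, Matrix.cons_val_zero]
    fun_prop
  · simp only [Fin.mk_one, Matrix.cons_val_one]
    fun_prop

/-- law of the service time -/
noncomputable def muS : Measure ℝ :=
  ENNReal.ofReal (1 / 10) • Measure.dirac 0 + ENNReal.ofReal (9 / 10) • Measure.dirac 19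

/-- law of the interarrival time -/
noncomputable def muT : Measure ℝ := Measure.dirac 10

/-- stationary law of the workload vector -/
noncomputable def nu : Measure (Fin (0 + 2) → ℝ) :=
  ENNReal.ofReal (1 / 10) • Measure.dirac ![0, 0] +
    ENNReal.ofReal (9 / 10) • Measure.dirac ![0, 9]

instance : IsProbabilityMeasure muT := by unfold muT; infer_instance

instance : IsProbabilityMeasure muS := by
  constructor
  unfold muS
  simp only [Measure.coe_add, Measure.coe_smul, Pi.add_apply, Pi.smul_apply, measure_univ,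
    smul_eq_mul, mul_one]
  rw [← ENNReal.ofReal_add (by norm_num) (by norm_num)]
  norm_num

instance : IsProbabilityMeasure nu := by
  constructor
  unfold nu
  simp only [Measure.coe_add, Measure.coe_smul, Pi.add_apply, Pi.smul_apply, measure_univ,
    smul_eq_mul, mul_one]
  rw [← ENNReal.ofReal_add (by norm_num) (by norm_num)]
  norm_num

/-- integral against a mixture -/
lemma int_mix {α : Type} [MeasurableSpace α] {a b : ℝ} (ha : 0 ≤ a) (hb : 0 ≤ b)
    {M N : Measure α} {F : α → ℝ} (hM : Integrable F M) (hN : Integrable F N) :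
    ∫ p, F p ∂(ENNReal.ofReal a • M + ENNReal.ofReal b • N) =
      a * (∫ p, F p ∂M) + b * ∫ p, F p ∂N := by
  rw [integral_add_measure (hM.smul_measure ENNReal.ofReal_ne_top)
    (hN.smul_measure ENNReal.ofReal_ne_top), integral_smul_measure, integral_smul_measure,
    ENNReal.toReal_ofReal ha, ENNReal.toReal_ofReal hb, smul_eq_mul, smul_eq_mul]

lemma integrable_mix {α : Type} [MeasurableSpace α] {a b : ℝ}
    {M N : Measure α} {F : α → ℝ} (hM : Integrable F M) (hN : Integrable F N) :
    Integrable F (ENNReal.ofReal a • M + ENNReal.ofReal b • N) :=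
  (hM.smul_measure ENNReal.ofReal_ne_top).add_measure (hN.smul_measure ENNReal.ofReal_ne_top)

lemma integrable_atom {α : Type} [MeasurableSpace α] [MeasurableSingletonClass α] (x : α)
    (F : α → ℝ) : Integrable F (Measure.dirac x) := integrable_dirac (by simp)

lemma mix_self {α : Type} [MeasurableSpace α] (M : Measure α) :
    ENNReal.ofReal (1 / 10) • M + ENNReal.ofReal (9 / 10) • M = M := by
  rw [← add_smul, ← ENNReal.ofReal_add (by norm_num) (by norm_num)]
  norm_num

lemma prod_ST : muS.prod muT = ENNReal.ofReal (1 / 10) • Measure.dirac ((0:ℝ), (10:ℝ)) +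
    ENNReal.ofReal (9 / 10) • Measure.dirac ((19:ℝ), (10:ℝ)) := by
  unfold muS muT
  rw [Measure.add_prod, Measure.prod_smul_left, Measure.prod_smul_left, Measure.dirac_prod_dirac,
    Measure.dirac_prod_dirac]

lemma prod_atom (x : Fin (0 + 2) → ℝ) : (Measure.dirac x).prod (muS.prod muT) =
    ENNReal.ofReal (1 / 10) • Measure.dirac (x, ((0:ℝ), (10:ℝ))) +
    ENNReal.ofReal (9 / 10) • Measure.dirac (x, ((19:ℝ), (10:ℝ))) := by
  rw [prod_ST, Measure.dirac_prod, Measure.map_add _ _ (by fun_prop), Measure.map_smul,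
    Measure.map_smul, Measure.map_dirac' (by fun_prop), Measure.map_dirac' (by fun_prop)]

lemma step_values : step (j := 0) ![0, 0] 0 10 = ![0, 0] ∧ step (j := 0) ![0, 0] 19 10 = ![0, 9] ∧
    step (j := 0) ![0, 9] 0 10 = ![0, 0] ∧ step (j := 0) ![0, 9] 19 10 = ![0, 9] := by
  refine ⟨?_, ?_, ?_, ?_⟩ <;>
  · funext i
    unfold step
    rw [workV_two]
    fin_cases i <;> norm_num

lemma map_step {x : Fin (0 + 2) → ℝ} (hx : x = ![0, 0] ∨ x = ![0, 9]) :
    ((Measure.dirac x).prod (muS.prod muT)).map (fun p => step p.1 p.2.1 p.2.2) = nu := by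
  obtain ⟨h1, h2, h3, h4⟩ := step_values
  rw [prod_atom, Measure.map_add _ _ measurable_step_two, Measure.map_smul, Measure.map_smul,
    Measure.map_dirac' measurable_step_two, Measure.map_dirac' measurable_step_two]
  rcases hx with rfl | rfl
  · simp only [h1, h2]
    rfl
  · simp only [h3, h4]
    rfl

lemma nu_prod : nu.prod (muS.prod muT) =
    ENNReal.ofReal (1 / 10) • ((Measure.dirac ![0, 0]).prod (muS.prod muT)) +
    ENNReal.ofReal (9 / 10) • ((Measure.dirac ![0, 9]).prod (muS.prod muT)) := by
  conv_lhs => unfold nu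
  rw [Measure.add_prod, Measure.prod_smul_left, Measure.prod_smul_left]

lemma nu_invariant : (nu.prod (muS.prod muT)).map (fun p => step p.1 p.2.1 p.2.2) = nu := by
  rw [nu_prod, Measure.map_add _ _ measurable_step_two, Measure.map_smul, Measure.map_smul,
    map_step (Or.inl rfl), map_step (Or.inr rfl), mix_self]

lemma law_empty (n : ℕ) : lawFromEmpty 0 muS muT (n + 1) = nu := by
  induction n with
  | zero =>
    change ((Measure.dirac 0).prod (muS.prod muT)).map (fun p => step p.1 p.2.1 p.2.2) = nu
    have h : (0 : Fin (0 + 2) → ℝ) = ![0, 0] := by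
      funext i
      fin_cases i <;> rfl
    rw [h]
    exact map_step (Or.inl rfl)
  | succ n ih =>
    change ((lawFromEmpty 0 muS muT (n + 1)).prod (muS.prod muT)).map
      (fun p => step p.1 p.2.1 p.2.2) = nu
    rw [ih]
    exact nu_invariant

lemma isStationary : IsStationaryLaw 0 muS muT nu where
  prob := inferInstance
  invariant := nu_invariant
  limit := by
    intro f _ _
    apply tendsto_const_nhds.congr'
    filter_upwards [eventually_ge_atTop 1] with n hn
    obtain ⟨m, rfl⟩ : ∃ m, n = m + 1 := ⟨n - 1, by omega⟩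
    rw [law_empty]

lemma int_muS (F : ℝ → ℝ) : ∫ s, F s ∂muS = 1 / 10 * F 0 + 9 / 10 * F 19 := by
  unfold muS
  rw [int_mix (by norm_num) (by norm_num) (integrable_atom _ _) (integrable_atom _ _),
    integral_dirac, integral_dirac]

lemma int_muT (F : ℝ → ℝ) : ∫ s, F s ∂muT = F 10 := by
  unfold muT
  rw [integral_dirac]

lemma isSystem : IsSystem 0 muS muT where
  probS := inferInstance
  probT := inferInstance
  nonnegS := by
    unfold muS
    simp
  nonnegT := by
    unfold muT
    simp
  integrableS := integrable_mix (integrable_atom _ _) (integrable_atom _ _)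
  integrableT := integrable_atom _ _
  meanS := by
    rw [int_muS]
    norm_num
  meanT := by
    rw [int_muT]
    norm_num
  intensity := by
    rw [int_muS, int_muT]
    norm_num

/-- integrals against the stationary law of `(W, S, T)` -/
lemma int_law (F : (Fin (0 + 2) → ℝ) × (ℝ × ℝ) → ℝ) :
    ∫ p, F p ∂(nu.prod (muS.prod muT)) =
      1 / 10 * (1 / 10 * F (![0, 0], (0, 10)) + 9 / 10 * F (![0, 0], (19, 10))) +
      9 / 10 * (1 / 10 * F (![0, 9], (0, 10)) + 9 / 10 * F (![0, 9], (19, 10))) := by
  rw [nu_prod, prod_atom, prod_atom]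
  rw [int_mix (by norm_num) (by norm_num)
    (integrable_mix (integrable_atom _ _) (integrable_atom _ _))
    (integrable_mix (integrable_atom _ _) (integrable_atom _ _)),
    int_mix (by norm_num) (by norm_num) (integrable_atom _ _) (integrable_atom _ _),
    int_mix (by norm_num) (by norm_num) (integrable_atom _ _) (integrable_atom _ _),
    integral_dirac, integral_dirac, integral_dirac, integral_dirac]

/-- a bounded nondecreasing function of one coordinate -/
noncomputable def clamp (i : Fin (0 + 2)) (x : Option (Fin (0 + 2)) → ℝ) : ℝ :=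
  max 0 (min (x (some i)) 100)

lemma clamp_measurable (i : Fin (0 + 2)) : Measurable (clamp i) := by
  unfold clamp
  fun_prop

lemma clamp_monotone (i : Fin (0 + 2)) : Monotone (clamp i) := by
  intro x y hxy
  unfold clamp
  exact max_le_max le_rfl (min_le_min (hxy _) le_rfl)

lemma clamp_bounded (i : Fin (0 + 2)) : ∃ M, ∀ x, |clamp i x| ≤ M := by
  refine ⟨100, fun x => ?_⟩
  unfold clamp
  rw [abs_of_nonneg (le_max_left _ _)]
  exact max_le (by norm_num) (min_le_right _ _)

/-- **Main theorem.** The family of Q1 is not associated in general. -/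
theorem result : ¬ ∀ (j : ℕ) (μS μT : Measure ℝ) (ν : Measure (Fin (j + 2) → ℝ)),
    IsSystem j μS μT → IsStationaryLaw j μS μT ν →
    Associated (ν.prod (μS.prod μT)) (fun p => family p.1 p.2.1 p.2.2) := by
  intro hall
  have h := hall 0 muS muT nu isSystem isStationary (clamp 0) (clamp 1) (clamp_measurable 0)
    (clamp_measurable 1) (clamp_monotone 0) (clamp_monotone 1) (clamp_bounded 0) (clamp_bounded 1)
  rw [int_law, int_law, int_law] at h
  simp only [clamp, family, workV_two] at h
  norm_num at h

end Pool.Agent.Results.MP_d464c7_pr.NotAssociated
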